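import Pool.Agent.N704.EZ.DifCore

/-!
EZ/DFJ: iterated differences of binomial coefficients near the balance point, with forbidden slots
(core).
-/

set_option autoImplicit false

open Finset

namespace Pool.Agent.N861.EZ

theorem choose_step {n k S : ℕ} (hn : n + 1 ≤ S) {c : ℝ} (hc : c ≤ (k : ℝ) / S) :
    (n.choose k : ℝ) ≤ Real.exp (-c) * ((n + 1).choose k : ℝ) := by
  rcases Nat.lt_or_ge (n + 1) k with h | h
  · rw [Nat.choose_eq_zero_of_lt (by omega : n < k)]
    simp only [Nat.cast_zero]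
    positivity
  · have h1 := Nat.choose_mul_succ_eq n k
    have h2 : (n.choose k : ℝ) * ((n : ℝ) + 1) = ((n + 1).choose k : ℝ) * ((n : ℝ) + 1 - k) := by
      have h3 : ((n.choose k * (n + 1) : ℕ) : ℝ) = (((n + 1).choose k * (n + 1 - k) : ℕ) : ℝ) := by
        rw [h1]
      push_cast [Nat.cast_sub h] at h3
      exact h3
    have hn0 : (0 : ℝ) < (n : ℝ) + 1 := by positivity
    have h3 : (n.choose k : ℝ) = ((n + 1).choose k : ℝ) * (1 - k / ((n : ℝ) + 1)) := by
      field_simp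
      linarith
    have hnS : (n : ℝ) + 1 ≤ S := by exact_mod_cast hn
    have h4 : (k : ℝ) / S ≤ k / ((n : ℝ) + 1) := by gcongr
    have h5 : 1 - (k : ℝ) / ((n : ℝ) + 1) ≤ Real.exp (-c) := by
      have h6 := Real.add_one_le_exp (-((k : ℝ) / ((n : ℝ) + 1)))
      have h7 : Real.exp (-((k : ℝ) / ((n : ℝ) + 1))) ≤ Real.exp (-c) :=
        Real.exp_le_exp.2 (by linarith)
      linarith
    rw [h3, mul_comm (Real.exp (-c))]
    gcongr

theorem choose_sub {S k : ℕ} {c : ℝ} (hc : c ≤ (k : ℝ) / S) :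
    ∀ J : ℕ, J ≤ S → ((S - J).choose k : ℝ) ≤ Real.exp (-(c * J)) * (S.choose k : ℝ)
  | 0, _ => by simp
  | J + 1, hJ => by
    have ih := choose_sub hc J (by omega)
    have h1 := choose_step (n := S - (J + 1)) (k := k) (S := S) (by omega) hc
    have h2 : S - (J + 1) + 1 = S - J := by omega
    rw [h2] at h1
    calc ((S - (J + 1)).choose k : ℝ) ≤ Real.exp (-c) * ((S - J).choose k : ℝ) := h1
      _ ≤ Real.exp (-c) * (Real.exp (-(c * J)) * (S.choose k : ℝ)) := by gcongr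
      _ = Real.exp (-(c * (J + 1 : ℕ))) * (S.choose k : ℝ) := by
          rw [← mul_assoc, ← Real.exp_add]
          congr 2
          push_cast
          ring

/-- the trivial bound -/
theorem triv (r S k : ℕ) (m : ℝ) (hm : 1 ≤ m) (hb : (S : ℝ) - k ≤ 2 * m * ((k : ℝ) + 1)) :
    |∑ i ∈ range (r + 1), (-1 : ℝ) ^ i * (r.choose i : ℝ) * ((S.choose (k + i) : ℝ) / m ^ i)| ≤
      3 ^ r * (S.choose k : ℝ) := by
  have hm0 : (0 : ℝ) < m := by linarith
  have h1 : ∀ i : ℕ, (S.choose (k + i) : ℝ) / m ^ i ≤ 2 ^ i * (S.choose k : ℝ) := by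
    intro i
    induction i with
    | zero => simp
    | succ i ih =>
      have h2 : (S.choose (k + (i + 1)) : ℝ) ≤ 2 * m * (S.choose (k + i) : ℝ) := by
        have h3 := Nat.choose_succ_right_eq S (k + i)
        have h4 : (S.choose (k + i + 1) : ℝ) * ((k : ℝ) + i + 1) ≤
            (S.choose (k + i) : ℝ) * (2 * m * ((k : ℝ) + i + 1)) := by
          have h5 : ((S.choose (k + i + 1) * (k + i + 1) : ℕ) : ℝ) =
            ((S.choose (k + i) * (S - (k + i)) : ℕ) : ℝ) := by rw [h3]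
          push_cast at h5
          rw [h5]
          have h6 : ((S - (k + i) : ℕ) : ℝ) ≤ 2 * m * ((k : ℝ) + i + 1) := by
            rcases Nat.le_total (k + i) S with h7 | h7
            · rw [Nat.cast_sub h7]
              push_cast
              have : (0 : ℝ) ≤ i := Nat.cast_nonneg i
              nlinarith
            · rw [Nat.sub_eq_zero_of_le h7]
              push_cast
              positivity
          gcongr
        have h5 : (0 : ℝ) < (k : ℝ) + i + 1 := by positivity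
        have h6 : (S.choose (k + i + 1) : ℝ) * ((k : ℝ) + i + 1) ≤
            (2 * m * (S.choose (k + i) : ℝ)) * ((k : ℝ) + i + 1) := by
          calc _ ≤ (S.choose (k + i) : ℝ) * (2 * m * ((k : ℝ) + i + 1)) := h4
            _ = _ := by ring
        exact le_of_mul_le_mul_right h6 h5
      calc (S.choose (k + (i + 1)) : ℝ) / m ^ (i + 1)
          ≤ (2 * m * (S.choose (k + i) : ℝ)) / m ^ (i + 1) := by gcongr
        _ = 2 * ((S.choose (k + i) : ℝ) / m ^ i) := by
            rw [pow_succ]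
            field_simp
        _ ≤ 2 * (2 ^ i * (S.choose k : ℝ)) := by gcongr
        _ = 2 ^ (i + 1) * (S.choose k : ℝ) := by ring
  calc |∑ i ∈ range (r + 1), (-1 : ℝ) ^ i * (r.choose i : ℝ) * ((S.choose (k + i) : ℝ) / m ^ i)|
      ≤ ∑ i ∈ range (r + 1), |(-1 : ℝ) ^ i * (r.choose i : ℝ) * ((S.choose (k + i) : ℝ) / m ^ i)| :=
        abs_sum_le_sum_abs _ _
    _ ≤ ∑ i ∈ range (r + 1), (r.choose i : ℝ) * (2 ^ i * (S.choose k : ℝ)) := by
        refine sum_le_sum fun i _ => ?_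
        rw [abs_mul, abs_mul, abs_pow, abs_neg, abs_one, one_pow, one_mul, Nat.abs_cast,
          abs_of_nonneg (by positivity)]
        exact mul_le_mul_of_nonneg_left (h1 i) (Nat.cast_nonneg _)
    _ = 3 ^ r * (S.choose k : ℝ) := by
        have h2 : (3 : ℝ) ^ r = ∑ i ∈ range (r + 1), (r.choose i : ℝ) * 2 ^ i := by
          rw [show (3 : ℝ) = 2 + 1 by norm_num, add_pow]
          refine sum_congr rfl fun i _ => ?_
          ring
        rw [h2, sum_mul]
        refine sum_congr rfl fun i _ => ?_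
        ring

theorem abs_iter (r : ℕ) (f : ℕ → ℝ) : |N704.EZ.D^[r] f 0| =
    |∑ i ∈ range (r + 1), (-1 : ℝ) ^ i * (r.choose i : ℝ) * f i| := by
  have h1 : N704.EZ.D^[r] f 0 =
      ∑ i ∈ range (r + 1), ((-1 : ℤ) ^ (r - i) * (r.choose i : ℤ)) • f (0 + i • 1) :=
    fwdDiff_iter_eq_sum_shift (1 : ℕ) f r 0
  rw [h1]
  have h2 : ∑ i ∈ range (r + 1), ((-1 : ℤ) ^ (r - i) * (r.choose i : ℤ)) • f (0 + i • 1) =
      (-1 : ℝ) ^ r * ∑ i ∈ range (r + 1), (-1 : ℝ) ^ i * (r.choose i : ℝ) * f i := by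
    rw [mul_sum]
    refine sum_congr rfl fun i hi => ?_
    have hir : i ≤ r := by
      have := mem_range.mp hi
      omega
    rw [zsmul_eq_mul]
    push_cast
    have h3 : (-1 : ℝ) ^ (r - i) = (-1) ^ r * (-1) ^ i := by
      have h4 : (-1 : ℝ) ^ r = (-1) ^ (r - i) * (-1) ^ i := by
        rw [← pow_add]
        congr 1
        omega
      rw [h4, mul_assoc, ← mul_pow]
      norm_num
    rw [h3]
    simp
    ring
  rw [h2, abs_mul, abs_pow, abs_neg, abs_one, one_pow, one_mul]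

theorem dfj_core (r : ℕ) (m : ℝ) (hm : 1 ≤ m) : ∃ C : ℝ, 0 < C ∧ ∀ (S k J : ℕ) (ε : ℝ), 0 < ε →
    ε ≤ 1 → k ≤ S → J ≤ S → 1 ≤ ε ^ 2 * (k : ℝ) → |((S : ℝ) - k) / ((k : ℝ) + 1) - m| ≤ ε * m →
    |∑ i ∈ range (r + 1), (-1 : ℝ) ^ i * (r.choose i : ℝ) *
      (((S - J).choose (k + i) : ℝ) / m ^ i)| ≤ C * ε ^ r * (S.choose k : ℝ) := by
  have hm0 : (0 : ℝ) < m := by linarith
  set c : ℝ := 1 / (2 * (2 * m + 1)) with hc
  have hc0 : 0 < c := by positivity
  set A : ℝ := N704.EZ.cc r r + 3 ^ r with hA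
  have hcc := N704.EZ.cc_pos r r
  have hA0 : 0 < A := by positivity
  set B : ℝ := (r.factorial : ℝ) * Real.exp c / c ^ r with hB
  have hB0 : 0 < B := by
    have : (0 : ℝ) < r.factorial := by exact_mod_cast Nat.factorial_pos r
    positivity
  refine ⟨A * B, by positivity, fun S k J ε hε hε1 hkS hJS hk hb => ?_⟩
  have hk0 : (0 : ℝ) < k := by
    rcases Nat.eq_zero_or_pos k with h | h
    · subst h
      norm_num at hk
    · exact_mod_cast h
  have hx : (0 : ℝ) < (k : ℝ) + 1 := by linarith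
  obtain ⟨hb1, hb2⟩ := abs_le.mp hb
  have hJ0 : (0 : ℝ) ≤ J := Nat.cast_nonneg J
  set δ : ℝ := ε + J / ((k : ℝ) + 1) with hδ
  have hδε : ε ≤ δ := by
    have : 0 ≤ (J : ℝ) / ((k : ℝ) + 1) := by positivity
    linarith
  have hinvk : 1 / ((k : ℝ) + 1) ≤ ε ^ 2 := by
    rw [div_le_iff₀ hx]
    nlinarith [sq_nonneg ε]
  have hδ2 : δ ≤ ε * (1 + J) := by
    have h1 : (J : ℝ) / ((k : ℝ) + 1) ≤ J * ε := by
      calc (J : ℝ) / ((k : ℝ) + 1) = J * (1 / ((k : ℝ) + 1)) := by ring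
        _ ≤ J * ε ^ 2 := by gcongr
        _ ≤ J * ε := by
            have : ε ^ 2 ≤ ε := by nlinarith
            gcongr
    linarith
  have hδ0 : 0 < δ := hε.trans_le hδε
  have hcast : (((S - J : ℕ)) : ℝ) = (S : ℝ) - J := Nat.cast_sub hJS
  have h2m : ((S : ℝ) - k) / ((k : ℝ) + 1) ≤ 2 * m := by nlinarith
  have h2m' : (S : ℝ) - k ≤ 2 * m * ((k : ℝ) + 1) := (div_le_iff₀ hx).1 h2m
  -- the bound for `S - J`
  have hmain : |∑ i ∈ range (r + 1), (-1 : ℝ) ^ i * (r.choose i : ℝ) *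
      (((S - J).choose (k + i) : ℝ) / m ^ i)| ≤ A * δ ^ r * ((S - J).choose k : ℝ) := by
    rcases le_or_gt δ 1 with h1 | h1
    · have h2 : |(((S - J : ℕ) : ℝ) - k) / ((k : ℝ) + 1) - m| ≤ δ * m := by
        rw [hcast]
        have e1 : ((S : ℝ) - J - k) / ((k : ℝ) + 1) - m =
          (((S : ℝ) - k) / ((k : ℝ) + 1) - m) - J / ((k : ℝ) + 1) := by
          field_simp
          ring
        rw [e1]
        have h3 : 0 ≤ (J : ℝ) / ((k : ℝ) + 1) := by positivity
        calc |(((S : ℝ) - k) / ((k : ℝ) + 1) - m) - J / ((k : ℝ) + 1)|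
            ≤ |((S : ℝ) - k) / ((k : ℝ) + 1) - m| + |(J : ℝ) / ((k : ℝ) + 1)| := abs_sub _ _
          _ ≤ ε * m + J / ((k : ℝ) + 1) := by
              rw [abs_of_nonneg h3]
              linarith
          _ ≤ ε * m + (J / ((k : ℝ) + 1)) * m := by nlinarith
          _ = δ * m := by rw [hδ]; ring
      have h3 : 1 ≤ δ ^ 2 * (k : ℝ) := by
        have : ε ^ 2 ≤ δ ^ 2 := pow_le_pow_left₀ hε.le hδε 2
        nlinarith
      have h4 := N704.EZ.core r (S - J) k m δ hm hδ0 h1 h3 h2 r le_rfl r 0 le_rfl (by omega)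
      rw [abs_iter] at h4
      calc _ ≤ N704.EZ.cc r r * ((S - J).choose k : ℝ) * δ ^ r := h4
        _ ≤ A * ((S - J).choose k : ℝ) * δ ^ r := by
            have : N704.EZ.cc r r ≤ A := by
              have : (0 : ℝ) < 3 ^ r := by positivity
              linarith
            gcongr
        _ = _ := by ring
    · have h2 := triv r (S - J) k m hm (by rw [hcast]; linarith)
      refine h2.trans ?_
      have h3 : 1 ≤ δ ^ r := one_le_pow₀ h1.le
      have h4 : (3 : ℝ) ^ r ≤ A * δ ^ r := by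
        calc (3 : ℝ) ^ r ≤ A * 1 := by linarith
          _ ≤ A * δ ^ r := by gcongr
      gcongr
  -- the decay
  have hcS : c ≤ (k : ℝ) / S := by
    have hS0 : (0 : ℝ) < S := by
      have : (k : ℝ) ≤ S := by exact_mod_cast hkS
      linarith
    rw [hc, div_le_div_iff₀ (by positivity) hS0]
    have h1 : (1 : ℝ) ≤ k := by
      have h2 : ε ^ 2 ≤ 1 := by nlinarith
      nlinarith
    nlinarith
  have hdec := choose_sub hcS J hJS
  have hfac : (1 + (J : ℝ)) ^ r * Real.exp (-(c * J)) ≤ B := by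
    have h1 := Real.pow_div_factorial_le_exp (c * (1 + J)) (by positivity) r
    have hf : (0 : ℝ) < r.factorial := by exact_mod_cast Nat.factorial_pos r
    rw [div_le_iff₀ hf, mul_pow] at h1
    have h2 : Real.exp (c * (1 + J)) = Real.exp c * Real.exp (c * J) := by
      rw [← Real.exp_add]; congr 1; ring
    have h3 : Real.exp (c * J) * Real.exp (-(c * J)) = 1 := by
      rw [← Real.exp_add]; simp
    rw [hB, le_div_iff₀ (by positivity)]
    calc (1 + (J : ℝ)) ^ r * Real.exp (-(c * J)) * c ^ r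
        = (c ^ r * (1 + (J : ℝ)) ^ r) * Real.exp (-(c * J)) := by ring
      _ ≤ (Real.exp (c * (1 + J)) * r.factorial) * Real.exp (-(c * J)) := by gcongr
      _ = r.factorial * Real.exp c * (Real.exp (c * J) * Real.exp (-(c * J))) := by rw [h2]; ring
      _ = r.factorial * Real.exp c := by rw [h3, mul_one]
  calc _ ≤ A * δ ^ r * ((S - J).choose k : ℝ) := hmain
    _ ≤ A * (ε * (1 + J)) ^ r * (Real.exp (-(c * J)) * (S.choose k : ℝ)) := by gcongr
    _ = A * ε ^ r * (S.choose k : ℝ) * ((1 + (J : ℝ)) ^ r * Real.exp (-(c * J))) := by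
        rw [mul_pow]; ring
    _ ≤ A * ε ^ r * (S.choose k : ℝ) * B := by gcongr
    _ = A * B * ε ^ r * (S.choose k : ℝ) := by ring

end Pool.Agent.N861.EZ
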