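import Pool.Agent.N929.EZ.Stm2
import Pool.Agent.N861.EZ.DfjCore

set_option autoImplicit false

/-!
EZ/DFJ: the statement of project EZ (helper929).
-/

namespace Pool.Agent.N861.EZ

theorem dfj : Pool.Agent.N929.EZ.S_DFJ := dfj_core

end Pool.Agent.N861.EZ
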